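import Pool.Agent.Q161.MgL

set_option autoImplicit false

/-!
# MP_95f31c_co: the magnitude homology of a real hyperplane arrangement is torsion-free

For every central arrangement `A` in `ℝ^d` and all `k, l` the group `MH_{k,l}(A)` has no nonzero
element of finite order; it is a free abelian group of finite rank.
-/

namespace Pool.Agent.Results.MP_95f31c_co.TorsionFree

open Q138.TopeMag Q138.MagHom

/-- For every arrangement `A` and all `k, l`, the group `MH_{k,l}(A)` is torsion-free; being
finitely generated, it is free of finite rank. -/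
theorem result (d : ℕ) (A : Arrangement d) (k l : ℕ) :
    (∀ (n : ℕ) (x : MH A.topeGraph k l), n ≠ 0 → n • x = 0 → x = 0) ∧
      Module.Finite ℤ (MH A.topeGraph k l) ∧ Module.Free ℤ (MH A.topeGraph k l) := by
  have h1 : ∀ (n : ℕ) (x : MH A.topeGraph k l), n ≠ 0 → n • x = 0 → x = 0 :=
    fun n x hn hx => Q161.Mg.torsionFree A k l n hn x hx
  have h2 : Module.Finite ℤ ((Fin (k + 1) → A.Chamber) →₀ ℤ) := inferInstance
  have h3 : Module.Finite ℤ (cycles A.topeGraph k l) := inferInstance
  have h4 : Module.Finite ℤ (MH A.topeGraph k l) := inferInstance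
  have h5 : Module.IsTorsionFree ℤ (MH A.topeGraph k l) := by
    refine Module.IsTorsionFree.of_smul_eq_zero fun n x hx => ?_
    by_cases hn : n = 0
    · exact Or.inl hn
    · right
      refine h1 n.natAbs x (Int.natAbs_ne_zero.2 hn) ?_
      rcases Int.natAbs_eq n with h | h
      · rw [← natCast_zsmul, ← h]
        exact hx
      · rw [← natCast_zsmul, ← neg_eq_zero, ← neg_smul, ← h]
        exact hx
  exact ⟨h1, h4, inferInstance⟩

end Pool.Agent.Results.MP_95f31c_co.TorsionFree
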